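import Pool.Agent.W802.DS.Stms

set_option autoImplicit false

namespace Pool.Agent.W935.DS.Fin

open Polynomial Filter Topology InnerProductSpace Metric Laplacian

/-- harmonicity is invariant under linear isometries -/
theorem harmonicAt_comp_isometry {E E' F : Type*} [NormedAddCommGroup E] [InnerProductSpace ℝ E]
    [FiniteDimensional ℝ E] [NormedAddCommGroup E'] [InnerProductSpace ℝ E']
    [FiniteDimensional ℝ E'] [NormedAddCommGroup F] [NormedSpace ℝ F] (L : E ≃ₗᵢ[ℝ] E')
    (f : E' → F) (x : E) (h : HarmonicAt f (L x)) : HarmonicAt (fun y => f (L y)) x := by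
  have key : ∀ y, (Δ (fun y => f (L y))) y = (Δ f) (L y) := by
    intro y
    rw [laplacian_eq_iteratedFDeriv_orthonormalBasis (fun y => f (L y)) (stdOrthonormalBasis ℝ E),
      laplacian_eq_iteratedFDeriv_orthonormalBasis f ((stdOrthonormalBasis ℝ E).map L)]
    refine Finset.sum_congr rfl fun i _ => ?_
    have h1 := L.toContinuousLinearEquiv.iteratedFDerivWithin_comp_right f uniqueDiffOn_univ
      (Set.mem_univ (L y)) 2
    rw [Set.preimage_univ, iteratedFDerivWithin_univ, iteratedFDerivWithin_univ] at h1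
    have h2 : (f ∘ ⇑L.toContinuousLinearEquiv) = fun y => f (L y) := rfl
    rw [h2] at h1
    rw [h1, ContinuousMultilinearMap.compContinuousLinearMap_apply]
    congr 1
    ext j
    fin_cases j <;> rfl
  refine ⟨h.1.comp x L.toContinuousLinearEquiv.contDiff.contDiffAt, ?_⟩
  have h2 : ∀ᶠ y in 𝓝 x, (Δ f) (L y) = (0 : E' → F) (L y) :=
    L.continuous.continuousAt.eventually h.2
  filter_upwards [h2] with y hy
  rw [key, hy]
  rfl

/-- Poisson integral of a continuous function on the unit circle -/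
noncomputable def PI (F : ℂ → ℝ) (z : ℂ) : ℝ :=
  (Real.circleAverage (fun ζ ↦ herglotzRieszKernel 0 z ζ • (F ζ : ℂ)) 0 1).re

theorem PI_harmonic (F : ℂ → ℝ) (hF : Continuous F) (z : ℂ) (hz : ‖z‖ < 1) :
    HarmonicAt (PI F) z := by
  have h1 : CircleIntegrable (fun ζ => (F ζ : ℂ)) 0 1 :=
    (Complex.continuous_ofReal.comp hF).continuousOn.circleIntegrable'
  exact (analyticOnNhd_circleAverage_herglotzRieszKernel_smul h1 z (by simpa using hz)).harmonicAt_re

theorem PI_eq (F : ℂ → ℝ) (hF : Continuous F) (z : ℂ) (hz : ‖z‖ < 1) :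
    PI F z = Real.circleAverage (poissonKernel 0 z • F) 0 1 := by
  unfold PI
  rw [re_circleAverage_herglotzRieszKernel_smul hF.continuousOn.circleIntegrable'
    (by simpa using hz), poissonKernel_eq_re_herglotzRieszKernel]

theorem PI_zero (F : ℂ → ℝ) (hF : Continuous F) : PI F 0 = Real.circleAverage F 0 1 := by
  rw [PI_eq F hF 0 (by simp)]
  refine Real.circleAverage_congr_sphere fun ζ hζ => ?_
  have h1 : ‖ζ‖ = 1 := by simpa using hζ
  simp [poissonKernel_def, h1]

theorem PI_ge (F : ℂ → ℝ) (hF : Continuous F) (Q : ℂ[X])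
    (hQ : ∀ ζ : ℂ, ‖ζ‖ = 1 → (Q.eval ζ).re ≤ F ζ) (z : ℂ) (hz : ‖z‖ < 1) :
    (Q.eval z).re ≤ PI F z := by
  have h1 : HarmonicOnNhd (fun ζ => (Q.eval ζ).re) (closedBall 0 1) := fun ζ _ =>
    (Q.differentiable.analyticAt ζ).harmonicAt_re
  have hcon : ContinuousOn (poissonKernel 0 z) (sphere 0 |1|) := by
    rw [poissonKernel_eq_re_herglotzRieszKernel]
    exact Complex.continuous_re.comp_continuousOn
      (continuousOn_herglotzRieszKernel_sphere (by simpa using hz))
  rw [← h1.circleAverage_poissonKernel_smul (w := z) (by simpa using hz), PI_eq F hF z hz]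
  refine Real.circleAverage_mono ?_ ?_ ?_
  · exact (hcon.smul (Complex.continuous_re.comp Q.continuous).continuousOn).circleIntegrable'
  · exact (hcon.smul hF.continuousOn).circleIntegrable'
  · intro ζ hζ
    have h3 : ‖ζ‖ = 1 := by simpa using hζ
    have h4 : 0 ≤ poissonKernel 0 z ζ := by
      rw [poissonKernel_def]
      refine div_nonneg ?_ (by positivity)
      simp only [sub_zero, h3]
      nlinarith [norm_nonneg z]
    simp only [Pi.smul_apply', smul_eq_mul]
    exact mul_le_mul_of_nonneg_left (hQ ζ h3) h4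

/-- real parts of the components, as a real linear map -/
noncomputable def lin (m : ℕ) : (Fin (m + 1) → ℂ) →L[ℝ] EuclideanSpace ℝ (Fin (m + 1)) :=
  (EuclideanSpace.equiv (Fin (m + 1)) ℝ).symm.toContinuousLinearMap.comp
    (ContinuousLinearMap.pi fun i => Complex.reCLM.comp (ContinuousLinearMap.proj i))

theorem lin_apply (m : ℕ) (a : Fin (m + 1) → ℂ) (i : Fin (m + 1)) : (lin m a) i = (a i).re := rfl

/-- the vector-valued harmonic function -/
noncomputable def UU (u : ℕ → ℂ[X]) (m : ℕ) (z : ℂ) : EuclideanSpace ℝ (Fin (m + 1)) :=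
  lin m (fun i => (u i).eval z)

theorem UU_apply (u : ℕ → ℂ[X]) (m : ℕ) (z : ℂ) (i : Fin (m + 1)) :
    UU u m z i = ((u i).eval z).re := rfl

theorem UU_hasDeriv (u : ℕ → ℂ[X]) (m : ℕ) (z : ℂ) :
    HasDerivAt (fun (z : ℂ) (i : Fin (m + 1)) => (u i).eval z)
      (fun i => (u i).derivative.eval z) z := by
  rw [hasDerivAt_pi]
  intro i
  exact (u i).hasDerivAt z

theorem UU_harmonic (u : ℕ → ℂ[X]) (m : ℕ) (z : ℂ) : HarmonicAt (UU u m) z := by
  have h1 : Differentiable ℂ (fun (z : ℂ) (i : Fin (m + 1)) => (u i).eval z) := fun z =>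
    (UU_hasDeriv u m z).differentiableAt
  exact (h1.analyticAt z).harmonicAt.comp_CLM (lin m)

theorem UU_continuous (u : ℕ → ℂ[X]) (m : ℕ) : Continuous (UU u m) :=
  (lin m).continuous.comp (continuous_pi fun i => (u i).continuous)

/-- tangent inequality -/
theorem tangent (p : ℝ) (hp : 1 < p) (t t0 : ℝ) (ht : 0 ≤ t) (ht0 : 0 < t0) :
    t0 ^ p + p * (t0 ^ p / t0) * (t - t0) ≤ t ^ p := by
  have h := one_add_mul_self_le_rpow_one_add (s := t / t0 - 1)
    (by have := div_nonneg ht ht0.le; linarith) hp.le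
  have h2 : (1 + (t / t0 - 1)) = t / t0 := by ring
  rw [h2, Real.div_rpow ht ht0.le] at h
  have h3 : 0 < t0 ^ p := Real.rpow_pos_of_pos ht0 p
  rw [le_div_iff₀ h3] at h
  calc _ = (1 + p * (t / t0 - 1)) * t0 ^ p := by field_simp
    _ ≤ _ := h

theorem UU_le (u : ℕ → ℂ[X]) (m : ℕ) (p : ℝ) (hp : 1 < p) (z : ℂ) (hz : ‖z‖ < 1) :
    ‖UU u m z‖ ^ p ≤ PI (fun ζ => ‖UU u m ζ‖ ^ p) z := by
  have hF : Continuous (fun ζ => ‖UU u m ζ‖ ^ p) :=
    (UU_continuous u m).norm.rpow_const fun _ => Or.inr (by linarith)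
  rcases (norm_nonneg (UU u m z)).eq_or_lt with h0 | h0
  · rw [← h0, Real.zero_rpow (by linarith)]
    have := PI_ge (fun ζ => ‖UU u m ζ‖ ^ p) hF 0 (fun ζ _ => by
      simp only [eval_zero, Complex.zero_re]
      positivity) z hz
    simpa using this
  · set t0 := ‖UU u m z‖ with ht0
    set Q : ℂ[X] := C ((t0 ^ p - p * (t0 ^ p / t0) * t0 : ℝ) : ℂ) +
      C ((p * (t0 ^ p / t0) : ℝ) : ℂ) * ∑ i : Fin (m + 1), C (((t0⁻¹ • UU u m z) i : ℝ) : ℂ) * u i
      with hQd
    have hQ : ∀ ζ : ℂ, (Q.eval ζ).re = t0 ^ p + p * (t0 ^ p / t0) *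
        (inner ℝ (UU u m ζ) (t0⁻¹ • UU u m z) - t0) := by
      intro ζ
      rw [hQd]
      simp only [eval_add, eval_mul, eval_C, eval_finsetSum, Complex.add_re, Complex.ofReal_re,
        Complex.re_ofReal_mul, Complex.re_sum]
      rw [PiLp.inner_apply]
      have : ∀ i : Fin (m + 1), inner ℝ (UU u m ζ i) ((t0⁻¹ • UU u m z) i) =
          (t0⁻¹ • UU u m z) i * ((u i).eval ζ).re := by
        intro i
        rw [UU_apply, RCLike.inner_apply, conj_trivial]
      simp only [this]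
      ring
    have hz2 : (Q.eval z).re = t0 ^ p := by
      rw [hQ, inner_smul_right, real_inner_self_eq_norm_sq, ← ht0]
      field_simp
      ring
    have hQF : ∀ ζ : ℂ, ‖ζ‖ = 1 → (Q.eval ζ).re ≤ ‖UU u m ζ‖ ^ p := by
      intro ζ _
      rw [hQ]
      refine le_trans ?_ (tangent p hp ‖UU u m ζ‖ t0 (norm_nonneg _) h0)
      have h1 : inner ℝ (UU u m ζ) (t0⁻¹ • UU u m z) ≤ ‖UU u m ζ‖ := by
        refine (real_inner_le_norm _ _).trans (le_of_eq ?_)
        rw [norm_smul, norm_inv, ← ht0, Real.norm_of_nonneg h0.le, inv_mul_cancel₀ h0.ne', mul_one]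
      have h2 : 0 ≤ p * (t0 ^ p / t0) := by positivity
      have := mul_le_mul_of_nonneg_left (sub_le_sub_right h1 t0) h2
      linarith
    have := PI_ge _ hF Q hQF z hz
    rw [hz2] at this
    exact this

/-- the coordinates of the plane -/
noncomputable def L : EuclideanSpace ℝ (Fin 2) ≃ₗᵢ[ℝ] ℂ := Complex.orthonormalBasisOneI.repr.symm

theorem L_single (j : Fin 2) : L (EuclideanSpace.single j 1) = (![1, Complex.I] : Fin 2 → ℂ) j := by
  unfold L
  rw [OrthonormalBasis.repr_symm_single, Complex.coe_orthonormalBasisOneI]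

theorem UU_normsq (u : ℕ → ℂ[X]) (m : ℕ) (z : ℂ) :
    ‖UU u m z‖ ^ 2 = ∑ i : Fin (m + 1), ((u i).eval z).re ^ 2 := by
  rw [EuclideanSpace.norm_sq_eq]
  refine Finset.sum_congr rfl fun i _ => ?_
  rw [UU_apply, Real.norm_eq_abs, sq_abs]

theorem grad (u : ℕ → ℂ[X]) (m : ℕ) (x : EuclideanSpace ℝ (Fin 2)) :
    ∑ j : Fin 2, ‖fderiv ℝ (fun x => UU u m (L x)) x (EuclideanSpace.single j (1 : ℝ))‖ ^ 2 =
      ∑ i : Fin (m + 1), ‖(u i).derivative.eval (L x)‖ ^ 2 := by
  have h1 := ((UU_hasDeriv u m (L x)).hasFDerivAt.restrictScalars ℝ)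
  have h2 : HasFDerivAt (fun x => L x) L.toContinuousLinearEquiv.toContinuousLinearMap x :=
    L.toContinuousLinearEquiv.hasFDerivAt
  have h3 := ((lin m).hasFDerivAt.comp (L x) h1).comp x h2
  have h4 : (((lin m : (Fin (m + 1) → ℂ) → EuclideanSpace ℝ (Fin (m + 1))) ∘
    (fun (z : ℂ) (i : Fin (m + 1)) => (u i).eval z)) ∘ (fun x => L x)) =
      fun x => UU u m (L x) := rfl
  rw [h4] at h3
  rw [h3.fderiv]
  have h5 : ∀ j : Fin 2, ‖(((lin m).comp (ContinuousLinearMap.restrictScalars ℝ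
      (ContinuousLinearMap.toSpanSingleton ℂ
        (fun i : Fin (m + 1) => (u i).derivative.eval (L x))))).comp
      L.toContinuousLinearEquiv.toContinuousLinearMap) (EuclideanSpace.single j (1 : ℝ))‖ ^ 2 =
      ∑ i : Fin (m + 1), ((![1, Complex.I] : Fin 2 → ℂ) j *
        (u i).derivative.eval (L x)).re ^ 2 := by
    intro j
    rw [EuclideanSpace.norm_sq_eq]
    refine Finset.sum_congr rfl fun i _ => ?_
    rw [← L_single, Real.norm_eq_abs, sq_abs]
    rfl
  rw [Fin.sum_univ_two]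
  refine (congrArg₂ (· + ·) (h5 0) (h5 1)).trans ?_
  rw [← Finset.sum_add_distrib]
  refine Finset.sum_congr rfl fun i _ => ?_
  rw [Complex.sq_norm, Complex.normSq_apply]
  simp
  ring

/-- the second function -/
noncomputable def vv (v : ℂ[X]) : ℕ → ℂ[X] := fun i => if i = 0 then v else 0

theorem vv_norm (v : ℂ[X]) (m : ℕ) (z : ℂ) : ‖UU (vv v) m z‖ = |(v.eval z).re| := by
  have h1 := UU_normsq (vv v) m z
  rw [Fin.sum_univ_succ] at h1
  have h2 : ∑ i : Fin m, ((vv v (i.succ : Fin (m + 1))).eval z).re ^ 2 = 0 := by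
    refine Finset.sum_eq_zero fun i _ => ?_
    simp [vv]
  rw [h2, add_zero] at h1
  have h3 : (vv v ((0 : Fin (m + 1)) : ℕ)) = v := by simp [vv]
  rw [h3, ← sq_abs (v.eval z).re] at h1
  exact (pow_left_inj₀ (norm_nonneg _) (abs_nonneg _) two_ne_zero).1 h1

theorem vv_grad (v : ℂ[X]) (m : ℕ) (z : ℂ) :
    ∑ i : Fin (m + 1), ‖(vv v i).derivative.eval z‖ ^ 2 = ‖v.derivative.eval z‖ ^ 2 := by
  rw [Fin.sum_univ_succ]
  have h2 : ∑ i : Fin m, ‖(vv v (i.succ : Fin (m + 1))).derivative.eval z‖ ^ 2 = 0 := by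
    refine Finset.sum_eq_zero fun i _ => ?_
    simp [vv]
  rw [h2, add_zero]
  simp [vv]

theorem split_rpow (p κ ε s X : ℝ) (hp : 0 < p) (hκ : 0 < κ) (hε : 0 < ε) (hs : 0 ≤ s)
    (h : s ^ 2 ≤ X ^ 2 + ε) :
    s ^ p ≤ (1 + κ) ^ (p / 2) * |X| ^ p + (ε * (1 + 1 / κ)) ^ (p / 2) := by
  have e1 : ∀ t : ℝ, 0 ≤ t → t ^ p = (t ^ 2) ^ (p / 2) := by
    intro t ht
    rw [← Real.rpow_natCast, ← Real.rpow_mul ht]
    congr 1
    push_cast
    ring
  rw [e1 s hs, e1 |X| (abs_nonneg X), sq_abs, ← Real.mul_rpow (by positivity) (by positivity)]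
  have h0 : 0 ≤ ((1 + κ) * X ^ 2) ^ (p / 2) := by positivity
  have h0' : 0 ≤ (ε * (1 + 1 / κ)) ^ (p / 2) := by positivity
  by_cases hc : ε ≤ κ * X ^ 2
  · have h1 : (s ^ 2) ^ (p / 2) ≤ ((1 + κ) * X ^ 2) ^ (p / 2) :=
      Real.rpow_le_rpow (by positivity) (by nlinarith) (by positivity)
    linarith
  · have h1 : (s ^ 2) ^ (p / 2) ≤ (ε * (1 + 1 / κ)) ^ (p / 2) := by
      refine Real.rpow_le_rpow (by positivity) ?_ (by positivity)
      have h2 : X ^ 2 ≤ ε * (1 / κ) := by
        rw [mul_one_div, le_div_iff₀ hκ]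
        push Not at hc
        linarith
      linarith
    linarith

theorem exists_eps (p c B J : ℝ) (hp : 0 < p) (hc : 0 ≤ c) (hB : 0 < B) (hJ : 0 < J) :
    ∃ ε : ℝ, 0 < ε ∧ ε ≤ J / 4 ∧ c ^ p * (ε * B) ^ (p / 2) ≤ J / 4 := by
  have hcp : 0 ≤ c ^ p := Real.rpow_nonneg hc p
  have hT : 0 < J / (4 * (c ^ p + 1)) := by positivity
  refine ⟨min (J / 4) ((J / (4 * (c ^ p + 1))) ^ (2 / p) / B), ?_, min_le_left _ _, ?_⟩
  · refine lt_min (by positivity) ?_
    have := Real.rpow_pos_of_pos hT (2 / p)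
    positivity
  · have h1 : min (J / 4) ((J / (4 * (c ^ p + 1))) ^ (2 / p) / B) * B ≤
        (J / (4 * (c ^ p + 1))) ^ (2 / p) := by
      refine (mul_le_mul_of_nonneg_right (min_le_right _ _) hB.le).trans (le_of_eq ?_)
      field_simp
    have h0 : 0 ≤ min (J / 4) ((J / (4 * (c ^ p + 1))) ^ (2 / p) / B) * B := by
      refine mul_nonneg (le_min (by positivity) ?_) hB.le
      have := Real.rpow_pos_of_pos hT (2 / p)
      positivity
    have h2 := Real.rpow_le_rpow h0 h1 (z := p / 2) (by positivity)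
    rw [← Real.rpow_mul hT.le] at h2
    have h3 : 2 / p * (p / 2) = 1 := by field_simp
    rw [h3, Real.rpow_one] at h2
    refine (mul_le_mul_of_nonneg_left h2 hcp).trans ?_
    rw [← mul_div_assoc, div_le_div_iff₀ (by positivity) (by positivity)]
    nlinarith

theorem cav_continuous (f : ℂ → ℝ) (hf : Continuous f) (r : ℝ) : CircleIntegrable f 0 r :=
  hf.continuousOn.circleIntegrable'

/-- harmonic majorants of `|Re v|^p` dominate the mean over the circle -/
theorem major (p : ℝ) (hp : 1 < p) (v : ℂ[X]) (m : ℕ) (g : EuclideanSpace ℝ (Fin 2) → ℝ)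
    (hg : HarmonicOnNhd g (ball 0 1)) (hvg : ∀ x ∈ ball (0 : EuclideanSpace ℝ (Fin 2)) 1,
      ‖UU (vv v) m (L x)‖ ^ p ≤ g x) :
    Real.circleAverage (fun z => |(v.eval z).re| ^ p) 0 1 ≤ g 0 := by
  have hcont : Continuous (fun z => |(v.eval z).re| ^ p) :=
    (Complex.continuous_re.comp v.continuous).abs.rpow_const fun _ => Or.inr (by linarith)
  have hmem : ∀ z : ℂ, ‖z‖ < 1 → L.symm z ∈ ball (0 : EuclideanSpace ℝ (Fin 2)) 1 := by
    intro z hz
    rw [mem_ball_zero_iff, LinearIsometryEquiv.norm_map]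
    exact hz
  have h1 : ∀ r : ℝ, 0 < r → r < 1 →
      Real.circleAverage (fun z => |(v.eval z).re| ^ p) 0 r ≤ g 0 := by
    intro r hr hr1
    have h2 : HarmonicOnNhd (fun z => g (L.symm z)) (closedBall 0 |r|) := by
      intro z hz
      rw [mem_closedBall_zero_iff, abs_of_pos hr] at hz
      exact harmonicAt_comp_isometry L.symm g z (hg _ (hmem z (by linarith)))
    have h3 := h2.circleAverage_eq
    have h4 : g (L.symm 0) = g 0 := by rw [map_zero]
    rw [h4] at h3
    rw [← h3]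
    refine Real.circleAverage_mono (cav_continuous _ hcont r)
      (h2.continuousOn.mono sphere_subset_closedBall).circleIntegrable' ?_
    intro z hz
    rw [mem_sphere_zero_iff_norm, abs_of_pos hr] at hz
    have h5 := hvg _ (hmem z (by linarith))
    rw [vv_norm, LinearIsometryEquiv.apply_symm_apply] at h5
    exact h5
  have h6 : Tendsto (Real.circleAverage (fun z => |(v.eval z).re| ^ p) 0) (𝓝[<] 1)
      (𝓝 (Real.circleAverage (fun z => |(v.eval z).re| ^ p) 0 1)) :=
    ((Real.Continuous.circleAverage hcont).tendsto 1).mono_left nhdsWithin_le_nhds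
  refine le_of_tendsto h6 ?_
  filter_upwards [Ioo_mem_nhdsLT (show (0 : ℝ) < 1 by norm_num)] with r hr
  exact h1 r hr.1 hr.2

theorem main : W802.DS.S_FIN := by
  intro p hp c c' hc hcc x y J hyx hJ hAdm
  have hp0 : 0 < p := by linarith
  have hc' : 0 < c' := lt_of_le_of_lt hc hcc
  obtain ⟨κ, hκ, hκ2⟩ : ∃ κ : ℝ, 0 < κ ∧ c ^ 2 * (1 + κ) ≤ c' ^ 2 := by
    have h1 : 0 < c' ^ 2 - c ^ 2 := by nlinarith
    refine ⟨(c' ^ 2 - c ^ 2) / (c ^ 2 + 1), by positivity, ?_⟩
    have h2 : c ^ 2 * ((c' ^ 2 - c ^ 2) / (c ^ 2 + 1)) ≤ c' ^ 2 - c ^ 2 := by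
      rw [← mul_div_assoc, div_le_iff₀ (by positivity)]
      nlinarith
    linarith
  have hκ3 : c ^ p * (1 + κ) ^ (p / 2) ≤ c' ^ p := by
    have e1 : ∀ t : ℝ, 0 ≤ t → t ^ p = (t ^ 2) ^ (p / 2) := by
      intro t ht
      rw [← Real.rpow_natCast, ← Real.rpow_mul ht]
      congr 1
      push_cast
      ring
    rw [e1 c hc, e1 c' hc'.le, ← Real.mul_rpow (by positivity) (by positivity)]
    exact Real.rpow_le_rpow (by positivity) hκ2 (by positivity)
  obtain ⟨ε, hε, hε1, hε2⟩ := exists_eps p c (1 + 1 / κ) J hp0 hc (by positivity) hJ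
  obtain ⟨m, u, v, hu0, hv0, hui, hgrad, hsmall, hval⟩ := hAdm ε hε
  have hF : Continuous (fun ζ => ‖UU u m ζ‖ ^ p) :=
    (UU_continuous u m).norm.rpow_const fun _ => Or.inr (by linarith)
  have hX : Continuous (fun z => |((u 0).eval z).re| ^ p) :=
    (Complex.continuous_re.comp (u 0).continuous).abs.rpow_const fun _ => Or.inr (by linarith)
  have hY : Continuous (fun z => |(v.eval z).re| ^ p) :=
    (Complex.continuous_re.comp v.continuous).abs.rpow_const fun _ => Or.inr (by linarith)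
  refine ⟨2, EuclideanSpace ℝ (Fin (m + 1)), inferInstance, inferInstance, inferInstance,
    ball 0 1, 0, fun x => UU u m (L x), fun x => UU (vv v) m (L x), isOpen_ball,
    ⟨⟨0, mem_ball_self one_pos⟩, (convex_ball 0 1).isPreconnected⟩, mem_ball_self one_pos,
    ?_, ?_, ?_, ?_, fun x => PI (fun ζ => ‖UU u m ζ‖ ^ p) (L x), ?_, ?_, J / 4, by positivity, ?_⟩
  · exact fun x _ => harmonicAt_comp_isometry L _ x (UU_harmonic u m _)
  · exact fun x _ => harmonicAt_comp_isometry L _ x (UU_harmonic (vv v) m _)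
  · intro x hx
    rw [grad, grad, vv_grad, ← Finset.sum_range (fun i => ‖(u i).derivative.eval (L x)‖ ^ 2)]
    refine hgrad (L x) ?_
    rw [LinearIsometryEquiv.norm_map]
    exact (mem_ball_zero_iff.1 hx).le
  · simp only [map_zero]
    rw [vv_norm, hv0, Complex.ofReal_re]
    refine hyx.trans ?_
    have h1 := UU_normsq u m 0
    rw [Fin.sum_univ_succ] at h1
    have h2 : 0 ≤ ∑ i : Fin m, ((u (i.succ : Fin (m + 1))).eval 0).re ^ 2 :=
      Finset.sum_nonneg fun i _ => sq_nonneg _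
    have h3 : ((u ((0 : Fin (m + 1)) : ℕ)).eval 0).re = x := by
      simp [hu0]
    rw [h3] at h1
    have h4 : x ^ 2 ≤ ‖UU u m 0‖ ^ 2 := by linarith
    exact abs_le_of_sq_le_sq h4 (norm_nonneg _)
  · exact fun x hx => harmonicAt_comp_isometry L _ x (PI_harmonic _ hF _ (by
      rw [LinearIsometryEquiv.norm_map]; exact mem_ball_zero_iff.1 hx))
  · intro x hx
    exact UU_le u m p hp (L x) (by rw [LinearIsometryEquiv.norm_map]; exact mem_ball_zero_iff.1 hx)
  · intro g hg hvg
    have hmaj := major p hp v m g hg hvg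
    simp only [map_zero]
    rw [PI_zero _ hF]
    have h1 : Real.circleAverage (fun ζ => ‖UU u m ζ‖ ^ p) 0 1 ≤
        (1 + κ) ^ (p / 2) * Real.circleAverage (fun z => |((u 0).eval z).re| ^ p) 0 1 +
          (ε * (1 + 1 / κ)) ^ (p / 2) := by
      have h2 : Real.circleAverage (fun z => (1 + κ) ^ (p / 2) * |((u 0).eval z).re| ^ p +
          (ε * (1 + 1 / κ)) ^ (p / 2)) 0 1 =
          (1 + κ) ^ (p / 2) * Real.circleAverage (fun z => |((u 0).eval z).re| ^ p) 0 1 +
          (ε * (1 + 1 / κ)) ^ (p / 2) := by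
        rw [Real.circleAverage_fun_add (cav_continuous
          (fun z => (1 + κ) ^ (p / 2) * |((u 0).eval z).re| ^ p) (continuous_const.mul hX) 1)
          (cav_continuous _ continuous_const 1), Real.circleAverage_const]
        congr 1
        exact Real.circleAverage_fun_smul (a := (1 + κ) ^ (p / 2))
      rw [← h2]
      refine Real.circleAverage_mono (cav_continuous _ hF 1)
        (cav_continuous _ ((continuous_const.mul hX).add continuous_const) 1) ?_
      intro z hz
      have hz1 : ‖z‖ = 1 := by simpa using hz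
      refine split_rpow p κ ε _ _ hp0 hκ hε (norm_nonneg _) ?_
      rw [UU_normsq, Fin.sum_univ_succ]
      have h3 : ∑ i : Fin m, ((u (i.succ : Fin (m + 1))).eval z).re ^ 2 ≤ ε := by
        refine le_trans ?_ (hsmall z hz1)
        rw [Finset.sum_range]
        refine Finset.sum_le_sum fun i _ => ?_
        rw [Fin.val_succ, ← sq_abs]
        exact pow_le_pow_left₀ (abs_nonneg _) (Complex.abs_re_le_norm _) 2
      have h4 : ((u ((0 : Fin (m + 1)) : ℕ)).eval z).re = ((u 0).eval z).re := by simp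
      rw [h4]
      linarith
    have h5 : W802.DS.cav (fun z => W802.DS.Phi c' p ((u 0).eval z).re (v.eval z).re) =
        Real.circleAverage (fun z => |(v.eval z).re| ^ p) 0 1 -
          c' ^ p * Real.circleAverage (fun z => |((u 0).eval z).re| ^ p) 0 1 := by
      unfold W802.DS.cav W802.DS.Phi
      rw [Real.circleAverage_fun_sub (cav_continuous _ hY 1)
        (cav_continuous (fun z => c' ^ p * |((u 0).eval z).re| ^ p)
          (continuous_const.mul hX) 1)]
      congr 1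
      exact Real.circleAverage_fun_smul (a := c' ^ p)
    rw [h5] at hval
    have hA : 0 ≤ Real.circleAverage (fun z => |((u 0).eval z).re| ^ p) 0 1 :=
      Real.circleAverage_nonneg_of_nonneg fun z _ => by positivity
    have hcp : 0 ≤ c ^ p := Real.rpow_nonneg hc p
    have h6 := mul_le_mul_of_nonneg_left h1 hcp
    have h7 := mul_le_mul_of_nonneg_right hκ3 hA
    linarith

end Pool.Agent.W935.DS.Fin
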